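import Pool.Agent.E8helper19.LC.Stm2
import Pool.Agent.E8helper57.LC.D3
import Pool.Agent.E8helper25.LC.D2

/-! LC24: second moments of the kernel `D`. -/

set_option autoImplicit false
open MeasureTheory Filter Topology Set

namespace Pool.Agent.E8helper79.LC

open Pool.Agent.E8helper19.LC
open Pool.Agent.E8helper57.LC (Hyp Dk_self dist_pos Dk_bd Dk_symm Dk_lead measurable_Dk)
open Pool.Agent.E8helper25.LC (line mu_bd)

theorem maj {a s0 : ℝ} (ha : 0 ≤ a) {W : ℝ → ℝ} (hm : Measurable W) (h0 : ∀ r, 0 ≤ W r)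
    (i0 : Integrable W) (i1 : Integrable (fun r => |r| * W r)) :
    Integrable (fun z : ℝ × ℝ => {z : ℝ × ℝ | |z.1 - s0| ≤ a + |z.2|}.indicator
      (fun z => W z.2) z) ((volume : Measure ℝ).prod volume) ∧
    ∫ z, {z : ℝ × ℝ | |z.1 - s0| ≤ a + |z.2|}.indicator (fun z => W z.2) z
      ∂((volume : Measure ℝ).prod volume) = ∫ r, 2 * (a + |r|) * W r := by
  have hms : MeasurableSet {z : ℝ × ℝ | |z.1 - s0| ≤ a + |z.2|} :=
    measurableSet_le (by fun_prop) (by fun_prop)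
  have hsec : ∀ y x : ℝ, {z : ℝ × ℝ | |z.1 - s0| ≤ a + |z.2|}.indicator
      (fun z => W z.2) (x, y) = (Icc (s0 - (a + |y|)) (s0 + (a + |y|))).indicator
        (fun _ => W y) x := by
    intro y x
    have hiff : |x - s0| ≤ a + |y| ↔ x ∈ Icc (s0 - (a + |y|)) (s0 + (a + |y|)) := by
      rw [abs_le, mem_Icc]
      constructor
      · rintro ⟨h1, h2⟩
        constructor <;> linarith
      · rintro ⟨h1, h2⟩
        constructor <;> linarith
    by_cases hx : |x - s0| ≤ a + |y|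
    · rw [indicator_of_mem (show (x, y) ∈ {z : ℝ × ℝ | |z.1 - s0| ≤ a + |z.2|} from hx),
        indicator_of_mem (hiff.1 hx)]
    · rw [indicator_of_notMem (show (x, y) ∉ {z : ℝ × ℝ | |z.1 - s0| ≤ a + |z.2|} from hx),
        indicator_of_notMem (fun h => hx (hiff.2 h))]
  have hval : ∀ y : ℝ, ∫ x : ℝ, (Icc (s0 - (a + |y|)) (s0 + (a + |y|))).indicator
      (fun _ => W y) x = 2 * (a + |y|) * W y := by
    intro y
    rw [integral_indicator measurableSet_Icc, setIntegral_const, smul_eq_mul, Measure.real,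
      Real.volume_Icc, ENNReal.toReal_ofReal (by
        have := abs_nonneg y
        linarith)]
    ring
  have hint : Integrable (fun z : ℝ × ℝ => {z : ℝ × ℝ | |z.1 - s0| ≤ a + |z.2|}.indicator
      (fun z => W z.2) z) ((volume : Measure ℝ).prod volume) := by
    rw [integrable_prod_iff']
    · constructor
      · refine Eventually.of_forall fun y => ?_
        simp only [hsec]
        exact (integrable_indicator_iff measurableSet_Icc).2 (integrableOn_const
          (by rw [Real.volume_Icc]; exact ENNReal.ofReal_ne_top))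
      · simp only [hsec, norm_indicator_eq_indicator_norm]
        refine ((i0.const_mul (2 * a)).add (i1.const_mul 2)).congr
          (Eventually.of_forall fun y => ?_)
        simp only [Pi.add_apply]
        rw [Real.norm_eq_abs, abs_of_nonneg (h0 y), hval]
        ring
    · exact ((hm.comp measurable_snd).indicator hms).aestronglyMeasurable
  refine ⟨hint, ?_⟩
  rw [integral_prod_symm _ hint]
  refine integral_congr_ae (Eventually.of_forall fun y => ?_)
  simp only [hsec]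
  exact hval y

theorem bound {a s0 : ℝ} (ha : 0 ≤ a) {W : ℝ → ℝ} (hm : Measurable W) (h0 : ∀ r, 0 ≤ W r)
    (i0 : Integrable W) (i1 : Integrable (fun r => |r| * W r)) {F : ℝ × ℝ → ℝ}
    (hF : Measurable F) (hF0 : ∀ t r, 0 ≤ F (t, t + r))
    (hF1 : ∀ t r, |t - s0| ≤ a + |r| → F (t, t + r) ≤ W r)
    (hF2 : ∀ t r, ¬ |t - s0| ≤ a + |r| → F (t, t + r) = 0) :
    Integrable F ∧ ∫ z, F z ≤ ∫ r, 2 * (a + |r|) * W r := by
  have hmp : MeasurePreserving (fun z : ℝ × ℝ => (z.1, z.1 + z.2))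
      ((volume : Measure ℝ).prod volume) ((volume : Measure ℝ).prod volume) :=
    measurePreserving_prod_add volume volume
  have hemb : MeasurableEmbedding (fun z : ℝ × ℝ => (z.1, z.1 + z.2)) :=
    (MeasurableEquiv.shearAddRight ℝ).measurableEmbedding
  obtain ⟨m1, m2⟩ := maj (s0 := s0) ha hm h0 i0 i1
  have hle : ∀ z : ℝ × ℝ, F (z.1, z.1 + z.2) ≤
      {z : ℝ × ℝ | |z.1 - s0| ≤ a + |z.2|}.indicator (fun z => W z.2) z := by
    intro z
    by_cases hz : |z.1 - s0| ≤ a + |z.2|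
    · rw [indicator_of_mem (show z ∈ {z : ℝ × ℝ | |z.1 - s0| ≤ a + |z.2|} from hz)]
      exact hF1 _ _ hz
    · rw [indicator_of_notMem (show z ∉ {z : ℝ × ℝ | |z.1 - s0| ≤ a + |z.2|} from hz),
        hF2 _ _ hz]
  have hI : Integrable (fun z : ℝ × ℝ => F (z.1, z.1 + z.2))
      ((volume : Measure ℝ).prod volume) := by
    refine Integrable.mono' m1 (hF.comp hmp.measurable).aestronglyMeasurable
      (Eventually.of_forall fun z => ?_)
    rw [Real.norm_eq_abs, abs_of_nonneg (hF0 _ _)]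
    exact hle z
  rw [Measure.volume_eq_prod]
  refine ⟨(hmp.integrable_comp_emb hemb).1 hI, ?_⟩
  rw [← hmp.integral_comp hemb F, ← m2]
  exact integral_mono hI m1 hle

theorem Dk_bd3 {γ : ℝ → P} {L k α c C0 : ℝ} {H : ℝ → ℝ} (X : Hyp γ L k α c H)
    (hC : 0 < C0) (t2 : ∀ s t, |s - t| - ‖γ s - γ t‖ ≤ C0 * |s - t| ^ 3) (s r : ℝ) :
    Dk α k γ s (s + r) ≤ α * mu α k * C0 * (|r| ^ 3 * H (mu α k * c * |r|)) := by
  rcases eq_or_ne r 0 with rfl | hr
  · rw [add_zero, Dk_self]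
    simp
  · have hst : s ≠ s + r := fun h => hr (by linarith)
    have e : |s - (s + r)| = |r| := by
      rw [show s - (s + r) = -r by ring, abs_neg]
    have h1 := X.α0
    have h2 := X.μ0
    have h3 := dist_pos X hst
    have h4 : 0 < |r| := abs_pos.2 hr
    have h5 := X.chord s (s + r)
    have h6 := X.chord' s (s + r)
    have ht := t2 s (s + r)
    rw [e] at h5 h6 ht
    have h7 : mu α k * ‖γ s - γ (s + r)‖ ≤ mu α k * |r| := mul_le_mul_of_nonneg_left h6 h2.le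
    have h8 : 0 < mu α k * ‖γ s - γ (s + r)‖ := mul_pos h2 h3
    unfold Dk
    rw [e, (X.Gpos _ _ h2 h3).2, (X.Gpos _ _ h2 h4).2]
    have h9 : 0 < mu α k * c * |r| := mul_pos (mul_pos h2 X.c0) h4
    have h10 : mu α k * c * |r| ≤ mu α k * ‖γ s - γ (s + r)‖ := by
      rw [mul_assoc]
      exact mul_le_mul_of_nonneg_left h5 h2.le
    have h11 := X.GH _ _ h8 h7
    have h12 := X.Hanti _ _ h9 h10
    have h13 := X.Hpos _ h8
    calc α * (Gk 1 (mu α k * ‖γ s - γ (s + r)‖) - Gk 1 (mu α k * |r|))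
        ≤ α * ((mu α k * |r| - mu α k * ‖γ s - γ (s + r)‖) *
            H (mu α k * ‖γ s - γ (s + r)‖)) := mul_le_mul_of_nonneg_left h11 h1.le
      _ ≤ α * ((mu α k * (C0 * |r| ^ 3)) * H (mu α k * c * |r|)) := by
          refine mul_le_mul_of_nonneg_left ?_ h1.le
          refine mul_le_mul ?_ h12 h13 (by positivity)
          rw [← mul_sub]
          exact mul_le_mul_of_nonneg_left ht h2.le
      _ = α * mu α k * C0 * (|r| ^ 3 * H (mu α k * c * |r|)) := by ring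

theorem t_D1B (h : S_CHORD) (h2 : S_TAY) (h3 : S_G) : S_D1B := by
  intro γ L k hγ hne hk
  obtain ⟨c, hc, _, hch⟩ := h γ L hγ hne
  obtain ⟨C0, hC, t1, t2, -, -, -⟩ := h2 γ L hγ
  obtain ⟨H, Q, hHme, hQme, hHQ0, hHQm, hG1, hG2, hHi, hQi, hH3⟩ := h3.2.2.2.2.2
  have hL := hγ.pos
  have H0 : ∀ x, 0 < x → 0 ≤ H x := fun x hx => (hHQ0 x hx).1
  set I5 := ∫ x in Ioi (0:ℝ), x ^ 5 * H x with hI5
  set I6 := ∫ x in Ioi (0:ℝ), x ^ 6 * H x with hI6
  have p5 : 0 ≤ I5 := setIntegral_nonneg measurableSet_Ioi fun x hx =>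
    mul_nonneg (pow_nonneg (le_of_lt hx) _) (H0 x hx)
  have p6 : 0 ≤ I6 := setIntegral_nonneg measurableSet_Ioi fun x hx =>
    mul_nonneg (pow_nonneg (le_of_lt hx) _) (H0 x hx)
  refine ⟨4 * k + 1, 4 * C0 * (1024 * (L * c⁻¹ ^ 6 * I5) + 4096 * (c⁻¹ ^ 7 * I6) +
    1024 * (c⁻¹ ^ 6 * I5)) + 1, by linarith, by positivity, ?_⟩
  intro α hα
  have hα1 : 1 ≤ α := by linarith
  have hα0 : 0 < α := by linarith
  obtain ⟨m1, m2, m3⟩ := mu_bd hk hα
  have X : Hyp γ L k α c H := ⟨hγ, hk, by linarith, hc, hch, t1, h3.1, h3.2.1, h3.2.2.1,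
    h3.2.2.2.2.1, hHme, H0, fun x y hx hxy => (hHQm x y hx hxy).1, hG1, hHi⟩
  have hμ : 0 < mu α k := X.μ0
  have hDm := measurable_Dk X
  have hbd := Dk_bd3 X hC t2
  set μ := mu α k with hμd
  have hb : 0 < μ * c := mul_pos hμ hc
  have hmm : μ * μ⁻¹ = 1 := mul_inv_cancel₀ hμ.ne'
  have hmp : 0 < μ⁻¹ := inv_pos.2 hμ
  have hm : μ⁻¹ ≤ 4 / α := by
    rw [inv_le_comm₀ hμ (by positivity), inv_div]; exact m1
  have ham : α * μ⁻¹ ≤ 4 := by
    have := mul_le_mul_of_nonneg_left hm hα0.le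
    rwa [mul_div_cancel₀ _ hα0.ne'] at this
  have q5 : α * μ⁻¹ ^ 5 ≤ 1024 / α ^ 4 := by
    rw [le_div_iff₀ (by positivity)]
    calc α * μ⁻¹ ^ 5 * α ^ 4 = (α * μ⁻¹) ^ 5 := by ring
      _ ≤ 4 ^ 5 := pow_le_pow_left₀ (by positivity) ham 5
      _ = 1024 := by norm_num
  have q6 : α * μ⁻¹ ^ 6 ≤ 4096 / α ^ 4 := by
    rw [le_div_iff₀ (by positivity)]
    calc α * μ⁻¹ ^ 6 * α ^ 4 ≤ α * μ⁻¹ ^ 6 * α ^ 5 :=
          mul_le_mul_of_nonneg_left (pow_le_pow_right₀ hα1 (by norm_num)) (by positivity)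
      _ = (α * μ⁻¹) ^ 6 := by ring
      _ ≤ 4 ^ 6 := pow_le_pow_left₀ (by positivity) ham 6
      _ = 4096 := by norm_num
  -- the moments
  have hli : ∀ j : ℕ, 1 ≤ j → Integrable (fun r : ℝ => |r| ^ j * H (μ * c * |r|)) ∧
      ∫ r : ℝ, |r| ^ j * H (μ * c * |r|) =
        2 * ((μ * c)⁻¹ ^ (j + 1) * ∫ x in Ioi (0:ℝ), x ^ j * H x) := by
    intro j hj
    have := line H j hb 0 (hHi j hj)
    simpa using this
  have hmeasH : ∀ j : ℕ, Measurable (fun r : ℝ => |r| ^ j * H (μ * c * |r|)) := by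
    intro j
    fun_prop
  have hnn : ∀ (j : ℕ) (r : ℝ), 1 ≤ j → 0 ≤ |r| ^ j * H (μ * c * |r|) := by
    intro j r hj
    rcases eq_or_ne r 0 with rfl | hr
    · rw [abs_zero, zero_pow (by omega), zero_mul]
    · exact mul_nonneg (pow_nonneg (abs_nonneg _) _)
        (H0 _ (mul_pos hb (abs_pos.2 hr)))
  have hamu : 0 ≤ α * μ * C0 := by positivity
  -- second moment
  have b1 := bound (s0 := 0) (a := L) hL.le
    (W := fun r => α * μ * C0 * (|r| ^ 5 * H (μ * c * |r|)))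
    ((hmeasH 5).const_mul _) (fun r => mul_nonneg hamu (hnn 5 r (by norm_num)))
    ((hli 5 (by norm_num)).1.const_mul _)
    (((hli 6 (by norm_num)).1.const_mul (α * μ * C0)).congr
      (Eventually.of_forall fun r => by simp only; ring))
    (F := fun z : ℝ × ℝ => Dk α k γ z.1 z.2 * |z.1 - z.2| ^ 2)
    (hDm.mul (by fun_prop))
    (fun t r => mul_nonneg (Dk_bd X t (t + r)).1 (by positivity))
    (fun t r _ => by
      simp only
      rw [show t - (t + r) = -r by ring, abs_neg]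
      calc Dk α k γ t (t + r) * |r| ^ 2 ≤
            α * μ * C0 * (|r| ^ 3 * H (μ * c * |r|)) * |r| ^ 2 :=
            mul_le_mul_of_nonneg_right (hbd t r) (by positivity)
        _ = _ := by ring)
    (fun t r ht => by
      simp only
      rw [Dk_lead X t r (by rw [sub_zero] at ht; exact not_le.1 ht), zero_mul])
  have v1 : ∫ r : ℝ, 2 * (L + |r|) * (α * μ * C0 * (|r| ^ 5 * H (μ * c * |r|))) =
      2 * (α * μ * C0) * (L * (2 * ((μ * c)⁻¹ ^ 6 * I5)) + 2 * ((μ * c)⁻¹ ^ 7 * I6)) := by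
    have e1 : (fun r : ℝ => 2 * (L + |r|) * (α * μ * C0 * (|r| ^ 5 * H (μ * c * |r|)))) =
        fun r : ℝ => (2 * (α * μ * C0) * L) * (|r| ^ 5 * H (μ * c * |r|)) +
          (2 * (α * μ * C0)) * (|r| ^ 6 * H (μ * c * |r|)) := by
      funext r
      ring
    rw [e1, integral_add ((hli 5 (by norm_num)).1.const_mul _)
      ((hli 6 (by norm_num)).1.const_mul _), integral_const_mul, integral_const_mul,
      (hli 5 (by norm_num)).2, (hli 6 (by norm_num)).2]
    ring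
  refine ⟨b1.1, ?_, ?_⟩
  · refine b1.2.trans ?_
    rw [v1]
    have e2 : 2 * (α * μ * C0) * (L * (2 * ((μ * c)⁻¹ ^ 6 * I5)) + 2 * ((μ * c)⁻¹ ^ 7 * I6)) =
        4 * C0 * ((α * μ⁻¹ ^ 5) * (L * c⁻¹ ^ 6 * I5) + (α * μ⁻¹ ^ 6) * (c⁻¹ ^ 7 * I6)) := by
      rw [mul_inv, mul_pow, mul_pow]
      linear_combination (4 * C0 * α * μ⁻¹ ^ 5 * (L * c⁻¹ ^ 6 * I5) +
        4 * C0 * α * μ⁻¹ ^ 6 * (c⁻¹ ^ 7 * I6)) * hmm
    rw [e2]
    calc 4 * C0 * ((α * μ⁻¹ ^ 5) * (L * c⁻¹ ^ 6 * I5) + (α * μ⁻¹ ^ 6) * (c⁻¹ ^ 7 * I6)) ≤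
          4 * C0 * ((1024 / α ^ 4) * (L * c⁻¹ ^ 6 * I5) + (4096 / α ^ 4) * (c⁻¹ ^ 7 * I6)) := by
          gcongr
      _ = 4 * C0 * (1024 * (L * c⁻¹ ^ 6 * I5) + 4096 * (c⁻¹ ^ 7 * I6)) / α ^ 4 := by ring
      _ ≤ _ := by
          gcongr
          have : 0 ≤ 4 * C0 * (1024 * (c⁻¹ ^ 6 * I5)) := by positivity
          linarith
  · intro s
    have b2 := bound (s0 := s) (a := 0) le_rfl
      (W := fun r => α * μ * C0 * (|r| ^ 4 * H (μ * c * |r|)))
      ((hmeasH 4).const_mul _) (fun r => mul_nonneg hamu (hnn 4 r (by norm_num)))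
      ((hli 4 (by norm_num)).1.const_mul _)
      (((hli 5 (by norm_num)).1.const_mul (α * μ * C0)).congr
        (Eventually.of_forall fun r => by simp only; ring))
      (F := fun z : ℝ × ℝ => if |s - z.1| ≤ |z.2 - z.1| then
        Dk α k γ z.2 z.1 * |z.2 - z.1| else 0)
      (Measurable.ite (measurableSet_le (by fun_prop) (by fun_prop))
        ((hDm.comp measurable_swap).mul (by fun_prop)) measurable_const)
      (fun t r => by
        simp only
        split_ifs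
        · exact mul_nonneg (Dk_bd X (t + r) t).1 (abs_nonneg _)
        · exact le_rfl)
      (fun t r ht => by
        simp only
        rw [zero_add, abs_sub_comm] at ht
        rw [show t + r - t = r by ring, if_pos ht, Dk_symm]
        calc Dk α k γ t (t + r) * |r| ≤
              α * μ * C0 * (|r| ^ 3 * H (μ * c * |r|)) * |r| :=
              mul_le_mul_of_nonneg_right (hbd t r) (abs_nonneg _)
          _ = _ := by ring)
      (fun t r ht => by
        simp only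
        rw [zero_add, abs_sub_comm] at ht
        rw [show t + r - t = r by ring, if_neg ht])
    have v2 : ∫ r : ℝ, 2 * (0 + |r|) * (α * μ * C0 * (|r| ^ 4 * H (μ * c * |r|))) =
        2 * (α * μ * C0) * (2 * ((μ * c)⁻¹ ^ 6 * I5)) := by
      have e1 : (fun r : ℝ => 2 * (0 + |r|) * (α * μ * C0 * (|r| ^ 4 * H (μ * c * |r|)))) =
          fun r : ℝ => (2 * (α * μ * C0)) * (|r| ^ 5 * H (μ * c * |r|)) := by
        funext r
        ring
      rw [e1, integral_const_mul, (hli 5 (by norm_num)).2]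
    have hsw : ∫ z : ℝ × ℝ, (if |s - z.2| ≤ |z.1 - z.2| then
        Dk α k γ z.1 z.2 * |z.1 - z.2| else 0) =
        ∫ z : ℝ × ℝ, (if |s - z.1| ≤ |z.2 - z.1| then Dk α k γ z.2 z.1 * |z.2 - z.1| else 0) := by
      rw [Measure.volume_eq_prod]
      exact (integral_prod_swap (μ := (volume : Measure ℝ)) (ν := (volume : Measure ℝ))
        (fun z : ℝ × ℝ => if |s - z.2| ≤ |z.1 - z.2| then
          Dk α k γ z.1 z.2 * |z.1 - z.2| else 0)).symm
    rw [hsw]
    refine b2.2.trans ?_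
    rw [v2]
    have e2 : 2 * (α * μ * C0) * (2 * ((μ * c)⁻¹ ^ 6 * I5)) =
        4 * C0 * ((α * μ⁻¹ ^ 5) * (c⁻¹ ^ 6 * I5)) := by
      rw [mul_inv, mul_pow]
      linear_combination (4 * C0 * α * μ⁻¹ ^ 5 * (c⁻¹ ^ 6 * I5)) * hmm
    rw [e2]
    calc 4 * C0 * ((α * μ⁻¹ ^ 5) * (c⁻¹ ^ 6 * I5)) ≤
          4 * C0 * ((1024 / α ^ 4) * (c⁻¹ ^ 6 * I5)) := by gcongr
      _ = 4 * C0 * (1024 * (c⁻¹ ^ 6 * I5)) / α ^ 4 := by ring
      _ ≤ _ := by
          gcongr
          have : 0 ≤ 4 * C0 * (1024 * (L * c⁻¹ ^ 6 * I5) + 4096 * (c⁻¹ ^ 7 * I6)) := by positivity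
          linarith

end Pool.Agent.E8helper79.LC
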